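import Pool.Agent.Lib.MP_b5021c_nt.IfaceE3

/-!
# TA3: a nonnegative trigonometric polynomial with constant coefficient one is constant
-/

namespace Pool.Agent.B5.H61

open Pool.Agent.B5

/-- (TA3) -/
theorem ta3 (hNn : Nn3S) (hA1 : A1S) (hEvR : EvRS) : Ta3S := by
  intro O _ _ _ _ L _ _ _ F hF h0
  have hcoef : ∀ (z : Circle) (a : L), (spec z F).coeff a = evR z (F.coeff a) := by
    intro z a
    simp [spec, AddMonoidAlgebra.mapRingHom]
  have hone : ∀ z : Circle, (spec z F).coeff 0 = 1 := by
    intro z
    rw [hcoef, h0, map_one]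
  have hzero : ∀ a : L, a ≠ 0 → F.coeff a = 0 := by
    intro a ha
    by_contra hne
    have hlt : ∀ z : Circle, ‖evR z (F.coeff a)‖ < 1 := by
      intro z
      have hp : spec z F ≠ 0 := by
        intro h
        have := hone z
        rw [h] at this
        simp at this
      have h1 := (hNn L (spec z F) hp (fun u => hF z u)).2 a ha
      rw [hone z, hcoef] at h1
      simpa using h1
    have hu := hA1 O (F.coeff a) hne (fun z => (hlt z).le)
    have h2 := (hEvR O).2.1 1 (F.coeff a) hu
    exact absurd h2 (hlt 1).ne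
  ext a
  rw [AddMonoidAlgebra.one_def, AddMonoidAlgebra.coeff_single]
  by_cases ha : a = 0
  · subst ha
    rw [h0, Finsupp.single_eq_same]
  · rw [hzero a ha, Finsupp.single_eq_of_ne ha]

end Pool.Agent.B5.H61
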